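import Pool.Agent.H94.LP1.M12
import Pool.Agent.H94.LP1.M26

/-!
# Nef classes with at most nine large multiplicities
-/

namespace Pool.Agent.H18.Nef

open Finset Pool.Agent.H18.Cub Pool.Agent.H18.Pr Pool.Agent.H18.Fat Pool.Agent.H18.Ub

variable {n : ℕ}

/-- Nef classes with at most nine large multiplicities. -/
theorem nine_large : ∃ K E : ℕ, ∀ M, 1 ≤ M → ∀ (n d : ℕ) (m : Fin n → ℕ) (J : Finset (Fin n)),
    J.card ≤ 9 → (∀ i, i ∉ J → m i ≤ M) → Pos (K * M ^ E) J d m →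
    ForGeneralPoints 2 n fun p => ImposesMaximalConditions 2 d p m := by
  obtain ⟨K, E, H⟩ := many_largeR 2 3 le_rfl (by norm_num)
  refine ⟨K, E, fun M hM n d m J hJ hsmall hpos => ?_⟩
  obtain ⟨d', m', h1, h2, h3, h4, h5⟩ := hpos.reduce d m hsmall
  have h6 := H M hM n d' m' J (by norm_num; exact hJ) h3 (fun S hS hS3 => h4 S hS hS3)
    h2.deg (fun i hi => h2.one hi) (by
      have := h2.can
      norm_num
      exact this)
  refine (cremona_final (by norm_num) h1 h6).mono fun p hp => ?_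
  have h7 := hp.2
  by_contra hcon
  have h8 := (h7.1 hcon).2
  have h9 : virt d' m' = ((d' + 2).choose 2 : ℤ) - ∑ i, ((m' i + 2 - 1).choose 2 : ℤ) := rfl
  have h10 : virt d m = ((d + 2).choose 2 : ℤ) - ∑ i, ((m i + 2 - 1).choose 2 : ℤ) := rfl
  rw [← h9, ← h10, h5] at h8
  exact lt_irrefl _ h8

end Pool.Agent.H18.Nef
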